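import Mathlib
import Pool.Agent.R120.SumClass

set_option autoImplicit false

/-! An infinite antichain of sum-indecomposable permutations and direct sums of small blocks. -/

namespace Pool.Agent.L0h69.Anti

open Pool.Agent.R120 Pool.Agent.R120.Antichain Pool.Agent.R120.SumClass Function

/-- index of a vertex: vertices `0, …, N` form a path, `N + 1` is a twin of `0`, `N + 2` a twin of `N` -/
def ix (N : ℕ) (j : Fin (N + 3)) : ℕ := if (j : ℕ) ≤ N then j else if (j : ℕ) = N + 1 then 0 else N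

def ox (N : ℕ) (j : Fin (N + 3)) : ℤ := if (j : ℕ) ≤ N then 0 else 1

def px (N : ℕ) (j : Fin (N + 3)) : ℤ :=
  if ix N j % 2 = 0 then 4 * (ix N j : ℤ) - 3 + ox N j else 4 * (ix N j : ℤ) + 3 + ox N j

def py (N : ℕ) (j : Fin (N + 3)) : ℤ :=
  if ix N j % 2 = 0 then 4 * (ix N j : ℤ) + 3 + ox N j else 4 * (ix N j : ℤ) - 3 + ox N j

lemma ox_cases (N : ℕ) (j : Fin (N + 3)) : ox N j = 0 ∨ ox N j = 1 := by
  unfold ox; split_ifs <;> simp

lemma ix_le (N : ℕ) (j : Fin (N + 3)) : ix N j ≤ N := by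
  unfold ix; split_ifs <;> omega

lemma ix_cases (N : ℕ) (j : Fin (N + 3)) : (ix N j = j ∧ (j : ℕ) ≤ N) ∨ (ix N j = 0 ∧ (j : ℕ) = N + 1) ∨
    (ix N j = N ∧ (j : ℕ) = N + 2) := by
  have := j.2
  unfold ix
  split_ifs <;> omega

lemma ext_ix {N : ℕ} (hN : 1 ≤ N) {i j : Fin (N + 3)} (h1 : ix N i = ix N j) (h2 : ox N i = ox N j) :
    i = j := by
  have hi := i.2
  have hj := j.2
  apply Fin.ext
  unfold ix at h1
  unfold ox at h2
  split_ifs at h1 h2 <;> omega

lemma px_inj {N : ℕ} (hN : 1 ≤ N) : Injective (px N) := by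
  intro i j h
  have a := ox_cases N i
  have b := ox_cases N j
  have c : ix N i = ix N j ∧ ox N i = ox N j := by
    unfold px at h
    split_ifs at h <;> omega
  exact ext_ix hN c.1 c.2

lemma py_inj {N : ℕ} (hN : 1 ≤ N) : Injective (py N) := by
  intro i j h
  have a := ox_cases N i
  have b := ox_cases N j
  have c : ix N i = ix N j ∧ ox N i = ox N j := by
    unfold py at h
    split_ifs at h <;> omega
  exact ext_ix hN c.1 c.2

/-- inversions are the pairs with indices at distance one -/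
lemma inv_iff (N : ℕ) (i j : Fin (N + 3)) :
    ((px N i < px N j ∧ py N j < py N i) ∨ (px N j < px N i ∧ py N i < py N j)) ↔
      (ix N i = ix N j + 1 ∨ ix N j = ix N i + 1) := by
  have a := ox_cases N i
  have b := ox_cases N j
  unfold px py
  split_ifs <;> omega

/-- the permutation realized by the points -/
lemma exists_beta (N : ℕ) (hN : 1 ≤ N) :
    ∃ π : Equiv.Perm (Fin (N + 3)), Realizes π (px N) (py N) :=
  exists_realizes _ _ (px_inj hN) (py_inj hN) (by simp)

noncomputable def beta (N : ℕ) : Equiv.Perm (Fin (N + 3)) :=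
  if h : 1 ≤ N then (exists_beta N h).choose else 1

lemma beta_spec {N : ℕ} (hN : 1 ≤ N) : Realizes (beta N) (px N) (py N) := by
  unfold beta
  rw [dif_pos hN]
  exact (exists_beta N hN).choose_spec

lemma exists_vertex {N i : ℕ} (hi : i ≤ N) : ∃ s : Fin (N + 3), ix N s = i ∧ (s : ℕ) = i := by
  refine ⟨⟨i, by omega⟩, ?_, rfl⟩
  unfold ix
  simp [hi]

lemma beta_indec {N : ℕ} (hN : 2 ≤ N) : Indecomposable ⟨N + 3, beta N⟩ := by
  refine indec_of_realizes (beta_spec (by omega)) (by omega) ?_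
  intro P hP
  have hP' : ∀ s t, (ix N s = ix N t + 1 ∨ ix N t = ix N s + 1) → (P s ↔ P t) := by
    intro s t h
    rcases (inv_iff N s t).2 h with h | h
    · exact hP s t h.1 h.2
    · exact (hP t s h.1 h.2).symm
  -- every vertex is equivalent to vertex `1`
  obtain ⟨v1, hv1, -⟩ := exists_vertex (N := N) (i := 1) (by omega)
  have key : ∀ n, ∀ s, ix N s = n → (P s ↔ P v1) := by
    intro n
    induction n with
    | zero => intro s hs; exact hP' s v1 (by omega)
    | succ n ih =>
      intro s hs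
      have hle := ix_le N s
      obtain ⟨t, ht, -⟩ := exists_vertex (N := N) (i := n) (by omega)
      exact (hP' s t (by omega)).trans (ih t ht)
  intro s t
  exact (key _ s rfl).trans (key _ t rfl).symm

/-- a vertex with three distinct neighbours has index `1` or `N - 1` -/
lemma three_nbrs {N : ℕ} {s a b c : Fin (N + 3)} (hab : a ≠ b) (hac : a ≠ c) (hbc : b ≠ c)
    (ha : ix N s = ix N a + 1 ∨ ix N a = ix N s + 1) (hb : ix N s = ix N b + 1 ∨ ix N b = ix N s + 1)
    (hc : ix N s = ix N c + 1 ∨ ix N c = ix N s + 1) : ix N s = 1 ∨ ix N s + 1 = N := by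
  have e1 : (a : ℕ) ≠ b := fun h => hab (Fin.ext h)
  have e2 : (a : ℕ) ≠ c := fun h => hac (Fin.ext h)
  have e3 : (b : ℕ) ≠ c := fun h => hbc (Fin.ext h)
  have h1 := ix_cases N a
  have h2 := ix_cases N b
  have h3 := ix_cases N c
  have h4 := ix_le N s
  generalize ix N s = S at *
  generalize ix N a = A at *
  generalize ix N b = B at *
  generalize ix N c = C at *
  by_contra hcon
  push Not at hcon
  omega

lemma unique_ix {N i : ℕ} (h0 : 0 < i) (hi : i < N) {s t : Fin (N + 3)} (hs : ix N s = i)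
    (ht : ix N t = i) : s = t := by
  apply Fin.ext
  unfold ix at hs ht
  split_ifs at hs ht <;> omega

lemma not_contains {M N : ℕ} (hM : 4 ≤ M) (hN : 4 ≤ N) (h : Contains (beta M) (beta N)) :
    M = N := by
  have hlen := contains_le h
  rw [contains_iff_of_realizes (beta_spec (by omega)) (beta_spec (by omega))] at h
  obtain ⟨f, hf1, hf2⟩ := h
  have hinj : Injective f := by
    intro a b hab
    by_contra hne
    have h1 : px M a ≠ px M b := fun h => hne (px_inj (by omega) h)
    rcases lt_or_gt_of_ne h1 with h2 | h2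
    · have := hf1 _ _ h2
      rw [hab] at this
      exact lt_irrefl _ this
    · have := hf1 _ _ h2
      rw [hab] at this
      exact lt_irrefl _ this
  have hadj : ∀ a b, (ix M a = ix M b + 1 ∨ ix M b = ix M a + 1) →
      (ix N (f a) = ix N (f b) + 1 ∨ ix N (f b) = ix N (f a) + 1) := by
    intro a b hab
    rcases (inv_iff M a b).2 hab with h | h
    · exact (inv_iff N _ _).1 (Or.inl ⟨hf1 _ _ h.1, (hf2 _ _).1 h.2⟩)
    · exact (inv_iff N _ _).1 (Or.inr ⟨hf1 _ _ h.1, (hf2 _ _).1 h.2⟩)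
  -- vertex 1
  obtain ⟨v1, hv1, hv1'⟩ := exists_vertex (N := M) (i := 1) (by omega)
  obtain ⟨v0, hv0, hv0'⟩ := exists_vertex (N := M) (i := 0) (by omega)
  obtain ⟨v2, hv2, hv2'⟩ := exists_vertex (N := M) (i := 2) (by omega)
  obtain ⟨w1, hw1, hw1'⟩ := exists_vertex (N := M) (i := M - 1) (by omega)
  obtain ⟨w0, hw0, hw0'⟩ := exists_vertex (N := M) (i := M) (by omega)
  obtain ⟨w2, hw2, hw2'⟩ := exists_vertex (N := M) (i := M - 2) (by omega)
  obtain ⟨v0', ht1, ht1'⟩ : ∃ v : Fin (M + 3), ix M v = 0 ∧ (v : ℕ) = M + 1 := by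
    refine ⟨⟨M + 1, by omega⟩, ?_, rfl⟩
    unfold ix
    simp
  obtain ⟨w0', ht2, ht2'⟩ : ∃ v : Fin (M + 3), ix M v = M ∧ (v : ℕ) = M + 2 := by
    refine ⟨⟨M + 2, by omega⟩, ?_, rfl⟩
    unfold ix
    simp
  have hne : ∀ a b : Fin (M + 3), (a : ℕ) ≠ b → f a ≠ f b := fun a b hab h =>
    hab (congrArg Fin.val (hinj h))
  have A := three_nbrs (hne v0 v0' (by omega)) (hne v0 v2 (by omega)) (hne v0' v2 (by omega))
    (hadj v1 v0 (by omega)) (hadj v1 v0' (by omega)) (hadj v1 v2 (by omega))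
  have B := three_nbrs (hne w0 w0' (by omega)) (hne w0 w2 (by omega)) (hne w0' w2 (by omega))
    (hadj w1 w0 (by omega)) (hadj w1 w0' (by omega)) (hadj w1 w2 (by omega))
  have C : ix N (f v1) ≠ ix N (f w1) := by
    intro h
    have h2 := unique_ix (N := N) (i := ix N (f v1)) (by omega) (by omega) rfl h.symm
    exact hne v1 w1 (by omega) h2
  -- path from `v1` to `w1`
  have path : ∀ k : ℕ, k + 1 ≤ M - 1 → ∀ s : Fin (M + 3), ix M s = k + 1 →
      ix N (f s) ≤ ix N (f v1) + k ∧ ix N (f v1) ≤ ix N (f s) + k := by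
    intro k
    induction k with
    | zero =>
      intro hk s hs
      have := unique_ix (N := M) (i := 1) (by omega) (by omega) hs hv1
      rw [this]
      omega
    | succ k ih =>
      intro hk s hs
      obtain ⟨t, ht, -⟩ := exists_vertex (N := M) (i := k + 1) (by omega)
      have h1 := ih (by omega) t ht
      have h2 := hadj s t (by omega)
      omega
  have D := path (M - 2) (by omega) w1 (by omega)
  omega

/-- direct sum of `q` permutations of length `k` -/
def blocks {q k : ℕ} (f : Fin q → Equiv.Perm (Fin k)) : Equiv.Perm (Fin (q * k)) :=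
  finProdFinEquiv.permCongr (Equiv.prodCongrRight f)

lemma blocks_inj {q k : ℕ} : Injective (blocks : (Fin q → Equiv.Perm (Fin k)) → _) := by
  intro f g h
  have h1 := finProdFinEquiv.permCongr.injective h
  funext a
  apply Equiv.ext
  intro i
  have h2 := congrArg (fun e : Equiv.Perm (Fin q × Fin k) => (e (a, i)).2) h1
  simpa using h2

lemma blocks_div {q k : ℕ} (f : Fin q → Equiv.Perm (Fin k)) (i : Fin (q * k)) :
    ((blocks f i : Fin (q * k)) : ℕ) / k = (i : ℕ) / k := by
  obtain ⟨⟨a, b⟩, rfl⟩ := finProdFinEquiv.surjective i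
  have hk : 0 < k := by
    have := b.2
    omega
  simp only [blocks, Equiv.permCongr_apply, Equiv.symm_apply_apply, Equiv.prodCongrRight_apply,
    finProdFinEquiv_apply_val]
  rw [Nat.add_mul_div_left _ _ hk, Nat.add_mul_div_left _ _ hk, Nat.div_eq_of_lt (f a b).2,
    Nat.div_eq_of_lt b.2]

lemma not_contains_blocks {n q k : ℕ} {π : Equiv.Perm (Fin n)} (hπ : Indecomposable ⟨n, π⟩)
    (hk : k < n) (f : Fin q → Equiv.Perm (Fin k)) : ¬ Contains π (blocks f) := by
  rintro ⟨g, hg, hg'⟩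
  have hn : 0 < n := by omega
  have hk0 : 0 < k := by
    rcases Nat.eq_zero_or_pos k with h | h
    · subst h
      have := (g ⟨0, hn⟩).2
      omega
    · exact h
  set B : Fin n → ℕ := fun i => (g i : ℕ) / k with hB
  have hBm : ∀ i j : Fin n, i ≤ j → B i ≤ B j := fun i j hij =>
    Nat.div_le_div_right (hg.monotone hij)
  -- not all points lie in one block
  have hex : ∃ m, ∃ h : m < n, B ⟨0, hn⟩ < B ⟨m, h⟩ := by
    by_contra hcon
    push Not at hcon
    have hall : ∀ i : Fin n, B i = B ⟨0, hn⟩ := fun i =>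
      le_antisymm (hcon i i.2) (hBm _ _ (Fin.le_def.2 (Nat.zero_le _)))
    have hinj : Injective (fun i : Fin n => (⟨(g i : ℕ) % k, Nat.mod_lt _ hk0⟩ : Fin k)) := by
      intro i j hij
      have h1 : (g i : ℕ) % k = (g j : ℕ) % k := congrArg Fin.val hij
      have h2 : (g i : ℕ) / k = (g j : ℕ) / k := (hall i).trans (hall j).symm
      apply hg.injective
      apply Fin.ext
      rw [← Nat.div_add_mod (g i : ℕ) k, ← Nat.div_add_mod (g j : ℕ) k, h1, h2]
    have := Fintype.card_le_of_injective _ hinj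
    simp at this
    omega
  classical
  obtain ⟨m, ⟨hm, hBlt⟩, hmin⟩ : ∃ m, (∃ h : m < n, B ⟨0, hn⟩ < B ⟨m, h⟩) ∧
      ∀ l < m, ¬ ∃ h : l < n, B ⟨0, hn⟩ < B ⟨l, h⟩ :=
    ⟨Nat.find hex, Nat.find_spec hex, fun k hk => Nat.find_min hex hk⟩
  have hm0 : 0 < m := by
    rcases Nat.eq_zero_or_pos m with h | h
    · subst h
      exact absurd hBlt (lt_irrefl _)
    · exact h
  obtain ⟨i, j, hi, hj, hlt⟩ := indec_cut hπ m hm0 hm
  have h1 : B i ≤ B ⟨0, hn⟩ := not_lt.1 (fun h => hmin i hi ⟨i.2, h⟩)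
  have h2 : B ⟨m, hm⟩ ≤ B j := hBm _ _ (Fin.le_def.2 hj)
  rw [hg', Fin.lt_def] at hlt
  have h3 := Nat.div_le_div_right (c := k) hlt.le
  rw [blocks_div, blocks_div] at h3
  have h4 : B j ≤ B i := h3
  omega

lemma dsumP_inj_right {m k : ℕ} (σ : Equiv.Perm (Fin m)) :
    Injective (fun τ : Equiv.Perm (Fin k) => dsumP σ τ) := by
  intro τ τ' h
  apply Equiv.ext
  intro i
  have h1 := congrArg (fun e : Equiv.Perm (Fin (m + k)) => e (Fin.natAdd m i)) h
  simp only [dsumP_right] at h1
  exact Fin.natAdd_injective k m h1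

/-- the antichain for block size `k` -/
def X (k : ℕ) : Set AllPerms :=
  {p | ∃ i : ℕ, ∃ f : Fin (i + k + 7) → Equiv.Perm (Fin k),
    p = ⟨(i + k + 4 + 3) + (i + k + 7) * k, dsumP (beta (i + k + 4)) (blocks f)⟩}

lemma X_antichain (k : ℕ) : IsPermAntichain (X k) := by
  rintro p ⟨i, f, rfl⟩ q ⟨j, g, rfl⟩ h
  by_cases hij : i = j
  · subst hij
    exact eq_of_len rfl h
  exfalso
  have h1 : Contains (beta (i + k + 4)) (dsumP (beta (i + k + 4)) (blocks f)) := by
    refine ⟨Fin.castAdd _, fun a b hab => ?_, fun a b => ?_⟩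
    · rw [Fin.lt_def] at hab ⊢
      exact hab
    · rw [dsumP_left, dsumP_left, Fin.lt_def, Fin.lt_def, Fin.val_castAdd, Fin.val_castAdd]
  have hind := beta_indec (N := i + k + 4) (by omega)
  rcases indec_of_dsum hind (contains_trans h1 h) with h2 | h2
  · exact hij (by have := not_contains (by omega) (by omega) h2; omega)
  · exact not_contains_blocks hind (by omega) g h2

lemma X_level (k i : ℕ) :
    (Nat.factorial k) ^ (i + k + 7) ≤ level (X k) ((i + k + 4 + 3) + (i + k + 7) * k) := by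
  classical
  unfold level
  have hinj : Injective (fun f : Fin (i + k + 7) → Equiv.Perm (Fin k) =>
      dsumP (beta (i + k + 4)) (blocks f)) := (dsumP_inj_right _).comp blocks_inj
  have h1 : Set.range (fun f : Fin (i + k + 7) → Equiv.Perm (Fin k) =>
      dsumP (beta (i + k + 4)) (blocks f)) ⊆
      {π | (⟨(i + k + 4 + 3) + (i + k + 7) * k, π⟩ : AllPerms) ∈ X k} := by
    rintro _ ⟨f, rfl⟩
    exact ⟨i, f, rfl⟩
  have h2 := Set.ncard_le_ncard h1 (Set.toFinite _)
  refine le_trans (le_of_eq ?_) h2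
  rw [← Set.image_univ, Set.ncard_image_of_injective _ hinj, Set.ncard_univ]
  simp [Fintype.card_perm]

end Pool.Agent.L0h69.Anti
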